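import Mathlib

set_option autoImplicit false

namespace Pool.Agent.Results.MP_434b1a_gt.Cov

open Filter Topology Set
open scoped Cardinal

abbrev Eu (n : ℕ) : Type := EuclideanSpace ℝ (Fin n)

def Manifold (n : ℕ) (M : Type) [TopologicalSpace M] : Prop :=
  ConnectedSpace M ∧ ∀ x : M, ∃ U : Set M, IsOpen U ∧ x ∈ U ∧ Nonempty (U ≃ₜ Eu n)

def NH {M : Type} [TopologicalSpace M] (x : M) : Set M :=
  {y | y ≠ x ∧ ¬ ∃ U V : Set M, IsOpen U ∧ IsOpen V ∧ x ∈ U ∧ y ∈ V ∧ Disjoint U V}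

def ENH (M : Type) [TopologicalSpace M] : Prop := ∀ x : M, (NH x).Nonempty

noncomputable def Ecov (n : ℕ) (M : Type) [TopologicalSpace M] : Cardinal :=
  sInf {k | ∃ 𝓤 : Set (Set M), (∀ U ∈ 𝓤, IsOpen U ∧ Nonempty (U ≃ₜ Eu n)) ∧ ⋃₀ 𝓤 = univ ∧ #𝓤 = k}

noncomputable def OH (M : Type) [TopologicalSpace M] : Cardinal :=
  sInf {k | ∃ 𝓤 : Set (Set M), (∀ U ∈ 𝓤, IsOpen U ∧ T2Space U) ∧ ⋃₀ 𝓤 = univ ∧ #𝓤 = k}

noncomputable def cov (n : ℕ) : Cardinal :=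
  sInf {k | ∃ 𝓝' : Set (Set (Eu n)), (∀ N ∈ 𝓝', IsNowhereDense N) ∧ ⋃₀ 𝓝' = univ ∧ #𝓝' = k}

section up

variable {n : ℕ} {M : Type} [TopologicalSpace M]

theorem chart (h : Manifold n M) (x : M) : ∃ e : Eu n → M, IsOpenEmbedding e ∧ x ∈ range e := by
  obtain ⟨U, h1, h2, ⟨φ⟩⟩ := h.2 x
  exact ⟨Subtype.val ∘ φ.symm, h1.isOpenEmbedding_subtypeVal.comp φ.symm.isOpenEmbedding,
    φ ⟨x, h2⟩, by simp⟩

theorem sepO {O : Set M} (h1 : IsOpen O) (h2 : T2Space O) {x y : M} (hx : x ∈ O) (hy : y ∈ O)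
    (h : x ≠ y) : ∃ U V : Set M, IsOpen U ∧ IsOpen V ∧ x ∈ U ∧ y ∈ V ∧ Disjoint U V := by
  obtain ⟨U, V, a1, a2, a3, a4, a5⟩ := t2_separation (show (⟨x, hx⟩ : O) ≠ ⟨y, hy⟩ from
    fun e => h (congrArg Subtype.val e))
  exact ⟨_, _, h1.isOpenMap_subtype_val U a1, h1.isOpenMap_subtype_val V a2, ⟨_, a3, rfl⟩,
    ⟨_, a4, rfl⟩, (disjoint_image_iff Subtype.val_injective).2 a5⟩

theorem mkE : #(Eu n) ≤ 𝔠 := by
  rw [Cardinal.mk_congr (EuclideanSpace.equiv (Fin n) ℝ).toEquiv]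
  simpa [Cardinal.mk_real] using Cardinal.power_nat_le Cardinal.aleph0_le_continuum

theorem hull (h : Manifold n M) (O : Set M) (x0 : M) : ∃ C : Set M, #C ≤ 𝔠 ∧
    (IsOpen O → T2Space O → x0 ∈ O → x0 ∈ C ∧ ∀ y ∈ O, y ∈ closure C → C ∈ 𝓝 y) := by
  classical
  choose e he hx using chart h
  haveI : FirstCountableTopology M := ⟨fun x => by
    obtain ⟨a, ha⟩ := hx x
    rw [← ha, ← (he x).map_nhds_eq]
    infer_instance⟩
  let β : Option (Option (Eu n)) → Type := fun a => Option.rec Empty (fun _ => ℕ) a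
  let op : (Σ a, β a → M) → M := fun s => match s with
    | ⟨none, _⟩ => x0
    | ⟨some none, f⟩ => if h : ∃ y ∈ O, Tendsto (f : ℕ → M) atTop (𝓝 y) then h.choose else x0
    | ⟨some (some r), f⟩ => e (f (0 : ℕ)) r
  refine ⟨range (WType.elim M op), Cardinal.mk_range_le.trans (WType.cardinalMk_le_of_le
    ((Cardinal.sum_le_sum _ (fun _ => 𝔠) fun a => ?_).trans ?_)), fun h1 h2 _ =>
    ⟨⟨⟨none, Empty.elim⟩, rfl⟩, fun y hy hc => ?_⟩⟩
  · rcases a with _ | a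
    · simpa [β] using Cardinal.one_lt_aleph0.le.trans Cardinal.aleph0_le_continuum
    · simp [β]
  · rw [Cardinal.sum_const', Cardinal.mk_option, Cardinal.mk_option]
    have hc := Cardinal.aleph0_le_continuum
    have h1 := Cardinal.one_lt_aleph0.le.trans hc
    exact Cardinal.mul_le_of_le hc (Cardinal.add_le_of_le hc (Cardinal.add_le_of_le hc mkE h1) h1)
      le_rfl
  · obtain ⟨f, h3, h4⟩ := mem_closure_iff_seq_limit.1 hc
    choose t ht using h3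
    have h5 : ∃ y ∈ O, Tendsto (fun i => WType.elim M op (t i)) atTop (𝓝 y) :=
      ⟨y, hy, by simpa only [ht] using h4⟩
    have h6 : WType.elim M op ⟨some none, t⟩ = y := by
      refine (dif_pos h5 : _ = h5.choose).trans (by_contra fun h6 => ?_)
      obtain ⟨U, V, a1, a2, a3, a4, a5⟩ := sepO h1 h2 h5.choose_spec.1 hy h6
      obtain ⟨i, b1, b2⟩ := ((h5.choose_spec.2.eventually (a1.mem_nhds a3)).and
        (h4.eventually (a2.mem_nhds a4))).exists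
      exact disjoint_left.1 a5 b1 (ht i ▸ b2)
    refine mem_of_superset ((he y).isOpen_range.mem_nhds (hx y)) ?_
    rintro _ ⟨r, rfl⟩
    exact ⟨⟨some (some r), fun _ => ⟨some none, t⟩⟩, congrArg (e · r) h6⟩

theorem size (h : Manifold n M) {𝓤 : Set (Set M)} (h1 : ∀ U ∈ 𝓤, IsOpen U ∧ T2Space U)
    (h2 : ⋃₀ 𝓤 = univ) : #M ≤ max 𝔠 #𝓤 := by
  haveI := h.1
  obtain ⟨x0⟩ : Nonempty M := inferInstance
  choose C a1 a2 using hull h
  have hc := Cardinal.aleph0_le_continuum.trans (le_max_left 𝔠 #𝓤)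
  let S : ℕ → Set M := fun k => Nat.rec {x0} (fun _ S => ⋃ x ∈ S, ⋃ O ∈ 𝓤, C O x) k
  have h3 : ∀ k, #↥(S k) ≤ max 𝔠 #𝓤 := fun k => by
    induction k with
    | zero => exact (finite_singleton x0).lt_aleph0.le.trans hc
    | succ k ih =>
      exact (Cardinal.mk_biUnion_le (fun x => ⋃ O ∈ 𝓤, C O x) (S k)).trans
        (Cardinal.mul_le_of_le hc ih (ciSup_le' fun x =>
        (Cardinal.mk_biUnion_le (fun O => C O x.1) 𝓤).trans
          (Cardinal.mul_le_of_le hc (le_max_right _ _)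
          (ciSup_le' fun O => (a1 _ _).trans (le_max_left _ _)))))
  have h4 : ∀ y ∈ closure (⋃ k, S k), (⋃ k, S k) ∈ 𝓝 y := fun y hy => by
    obtain ⟨O, b1, b2⟩ := eq_univ_iff_forall.1 h2 y
    obtain ⟨e, he, a, rfl⟩ := chart h y
    obtain ⟨r, b3, b4⟩ := Metric.isOpen_iff.1 ((h1 O b1).1.preimage he.continuous) a b2
    have b5 := he.isOpenMap.image_mem_nhds (Metric.ball_mem_nhds a b3)
    obtain ⟨s, b6, b7⟩ := mem_closure_iff_nhds.1 hy _ b5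
    obtain ⟨k, b7⟩ := mem_iUnion.1 b7
    have b8 := image_subset_iff.2 b4
    obtain ⟨b9, b10⟩ := a2 O s (h1 O b1).1 (h1 O b1).2 (b8 b6)
    have := ((convex_ball a r).isPreconnected.image e
      he.continuous.continuousOn).subset_left_of_subset_union (isOpen_interior (s := C O s))
      (isClosed_closure (s := C O s)).isOpen_compl
      (disjoint_compl_right.mono_left interior_subset_closure)
      (fun z hz => (em (z ∈ closure (C O s))).imp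
        (fun h5 => mem_interior_iff_mem_nhds.2 (b10 z (b8 hz) h5)) id)
      ⟨s, b6, mem_interior_iff_mem_nhds.2 (b10 s (b8 b6) (subset_closure b9))⟩
    exact mem_of_superset b5 fun z hz => mem_iUnion.2 ⟨k + 1,
      mem_biUnion b7 (mem_biUnion b1 (interior_subset (this hz)))⟩
  have h5 : (⋃ k, S k) = univ := IsClopen.eq_univ
    ⟨isClosed_of_closure_subset fun y hy => mem_of_mem_nhds (h4 y hy),
      isOpen_iff_mem_nhds.2 fun y hy => h4 y (subset_closure hy)⟩ ⟨x0, mem_iUnion.2 ⟨0, rfl⟩⟩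
  rw [← Cardinal.mk_univ, ← h5]
  exact (Cardinal.mk_iUnion_le S).trans (Cardinal.mul_le_of_le hc (by simpa using hc)
    (ciSup_le' h3))

theorem t2 {U : Set M} (h : Nonempty (U ≃ₜ Eu n)) : T2Space U := h.some.isEmbedding.t2Space

theorem ecov (h : Manifold n M) : ∃ 𝓤 : Set (Set M),
    (∀ U ∈ 𝓤, IsOpen U ∧ Nonempty (U ≃ₜ Eu n)) ∧ ⋃₀ 𝓤 = univ ∧ #𝓤 ≤ #M := by
  choose U a1 a2 a3 using h.2
  exact ⟨range U, by rintro _ ⟨x, rfl⟩; exact ⟨a1 x, a3 x⟩,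
    eq_univ_of_forall fun x => ⟨_, ⟨x, rfl⟩, a2 x⟩, Cardinal.mk_range_le⟩

theorem ohmem (h : Manifold n M) : ∃ 𝓤 : Set (Set M),
    (∀ U ∈ 𝓤, IsOpen U ∧ T2Space U) ∧ ⋃₀ 𝓤 = univ ∧ #𝓤 = OH M := by
  obtain ⟨𝓤, a1, a2, -⟩ := ecov h
  exact csInf_mem (s := {k | ∃ 𝓤 : Set (Set M), (∀ U ∈ 𝓤, IsOpen U ∧ T2Space U) ∧ ⋃₀ 𝓤 = univ ∧
    #𝓤 = k}) ⟨_, 𝓤, fun U hU => ⟨(a1 U hU).1, t2 (a1 U hU).2⟩, a2, rfl⟩

theorem emem (h : Manifold n M) : ∃ 𝓤 : Set (Set M),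
    (∀ U ∈ 𝓤, IsOpen U ∧ Nonempty (U ≃ₜ Eu n)) ∧ ⋃₀ 𝓤 = univ ∧ #𝓤 = Ecov n M := by
  obtain ⟨𝓤, a1, a2, -⟩ := ecov h
  exact csInf_mem (s := {k | ∃ 𝓤 : Set (Set M), (∀ U ∈ 𝓤, IsOpen U ∧ Nonempty (U ≃ₜ Eu n)) ∧
    ⋃₀ 𝓤 = univ ∧ #𝓤 = k}) ⟨_, 𝓤, a1, a2, rfl⟩

theorem bound (h : Manifold n M) : Ecov n M ≤ max 𝔠 (OH M) := by
  obtain ⟨𝓤, a1, a2, a3⟩ := ecov h
  obtain ⟨𝓥, b1, b2, b3⟩ := ohmem h
  unfold Ecov
  exact le_trans (csInf_le' ⟨𝓤, a1, a2, rfl⟩) (a3.trans (b3 ▸ size h b1 b2))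

theorem low (h : Manifold n M) (hE : ENH M) : 1 ≤ n ∧ cov n ≤ OH M := by
  haveI := h.1
  obtain ⟨x0⟩ : Nonempty M := inferInstance
  obtain ⟨e, he, -⟩ := chart h x0
  obtain ⟨𝓥, b1, b2, b3⟩ := ohmem h
  have h1 : ∀ O ∈ 𝓥, IsNowhereDense (frontier (e ⁻¹' O)) := fun O hO => by
    rw [isClosed_frontier.isNowhereDense_iff, ← frontier_compl]
    exact interior_frontier ((b1 O hO).1.preimage he.continuous).isClosed_compl
  have h2 : ∀ z, ∃ O ∈ 𝓥, z ∈ frontier (e ⁻¹' O) := fun z => by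
    obtain ⟨y, a1, a2⟩ := hE (e z)
    obtain ⟨O, a3, a4⟩ := eq_univ_iff_forall.1 b2 y
    refine ⟨O, a3, mem_closure_iff.2 fun V a5 a6 => by_contra fun a7 => a2
      ⟨_, O, he.isOpenMap V a5, (b1 O a3).1, ⟨z, a6, rfl⟩, a4, ?_⟩,
      fun a5 => a2 (sepO (b1 O a3).1 (b1 O a3).2 (interior_subset (s := e ⁻¹' O) a5 : z ∈ e ⁻¹' O) a4
        a1.symm)⟩
    exact disjoint_left.2 fun _ ⟨w, a8, a9⟩ a10 => a7 ⟨w, a8, show e w ∈ O from a9 ▸ a10⟩
  unfold cov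
  refine ⟨Nat.pos_of_ne_zero fun h0 => ?_, le_trans (csInf_le' ⟨(fun O => frontier (e ⁻¹' O)) '' 𝓥,
    ?_, eq_univ_of_forall fun z => ?_, rfl⟩) (b3 ▸ Cardinal.mk_image_le)⟩
  · subst h0
    obtain ⟨O, -, a2⟩ := h2 0
    simp at a2
  · rintro _ ⟨O, hO, rfl⟩
    exact h1 O hO
  · obtain ⟨O, a1, a2⟩ := h2 z
    exact ⟨_, ⟨O, a1, rfl⟩, a2⟩

theorem small (h : Manifold n M) (hE : ENH M) (hlt : OH M < Ecov n M) : 1 ≤ n ∧ cov n < 𝔠 :=
  ⟨(low h hE).1, (low h hE).2.trans_lt ((lt_max_iff.1 (hlt.trans_le (bound h))).resolve_right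
    (lt_irrefl _))⟩

end up

theorem glue {E M I : Type} [t : TopologicalSpace E] (e : I → E → M)
    (h1 : ∀ i, Function.Injective (e i))
    (h2 : ∀ i j V, IsOpen V → IsOpen (e j ⁻¹' (e i '' V))) (i : I) :
    @IsOpenEmbedding E M _ (⨆ i, t.coinduced (e i)) (e i) :=
  @IsOpenEmbedding.of_continuous_injective_isOpenMap _ _ _ _ (⨆ i, t.coinduced (e i))
    (continuous_iSup_rng continuous_coinduced_rng) (h1 i)
    fun V hV => isOpen_iSup_iff.2 fun j => h2 i j V hV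

noncomputable def pr (a : ℝ) (w : ℝ × ℝ) : ℝ × ℝ × ℝ :=
  if 0 < w.2 then (0, a + w.1 * w.2, w.2) else (a, w.1, w.2)

theorem pr2 (a b : ℝ) {w : ℝ × ℝ} (h : 0 < w.2) : pr a (w.1 + (b - a) / w.2, w.2) = pr b w := by
  simp only [pr, if_pos h, Prod.mk.injEq, true_and, and_true]
  field_simp
  ring

theorem pr3 {a b : ℝ} {w v : ℝ × ℝ} (h : pr a w = pr b v) : w.2 = v.2 := by
  have := congrArg (fun t => t.2.2) h
  unfold pr at this
  split_ifs at this <;> exact this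

theorem pr1 (a : ℝ) : Function.Injective (pr a) := fun w v h => by
  have h1 := pr3 h
  refine Prod.ext ?_ h1
  have := congrArg (fun t => t.2.1) h
  unfold pr at this
  rw [← h1] at this
  split_ifs at this with h2
  · exact mul_right_cancel₀ h2.ne' (add_left_cancel this)
  · exact this

theorem pr4 (a b : ℝ) : ∃ (D : Set (ℝ × ℝ)) (τ : ℝ × ℝ → ℝ × ℝ), IsOpen D ∧ ContinuousOn τ D ∧
    ∀ w v, pr a w = pr b v ↔ v ∈ D ∧ w = τ v := by
  by_cases h : a = b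
  · exact ⟨univ, id, isOpen_univ, continuousOn_id, fun w v => by simp [h, (pr1 b).eq_iff]⟩
  refine ⟨{v | 0 < v.2}, fun v => (v.1 + (b - a) / v.2, v.2),
    isOpen_lt continuous_const continuous_snd, (continuousOn_fst.add (continuousOn_const.div
      continuousOn_snd fun v hv => ne_of_gt hv)).prodMk continuousOn_snd,
    fun w v => ⟨fun h1 => ?_, fun h1 => h1.2 ▸ pr2 a b h1.1⟩⟩
  have h2 : 0 < v.2 := by
    by_contra h2
    have h3 := congrArg Prod.fst h1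
    rw [pr, pr, pr3 h1, if_neg h2, if_neg h2] at h3
    exact h h3
  exact ⟨h2, pr1 a (h1.trans (pr2 a b h2).symm)⟩

theorem build {n : ℕ} {J : Type} (F : Option J → Set (Eu n)) (h0 : F none = ∅)
    (h1 : ∀ j, IsClosed (F j)) (h2 : ∀ j, Dense (F j)ᶜ) (h3 : ∀ z, ∃ j, z ∈ F j) :
    ∃ (M : Type) (_ : TopologicalSpace M), Manifold (n + 2) M ∧ ENH M ∧
      OH M ≤ #(Option J) ∧ 𝔠 ≤ Ecov (n + 2) M := by
  classical
  let d : Option J → Eu n → Option J := fun j z => if z ∈ F j then j else none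
  have d1 : ∀ j k z, z ∉ F j → z ∉ F k → d j z = d k z := fun j k z a1 a2 => by simp [d, a1, a2]
  have d2 : ∀ j z, z ∈ F j → d j z ≠ none := fun j z a1 a2 => by
    rw [show d j z = j from if_pos a1] at a2
    simp [a2, h0] at a1
  have d3 : ∀ j k, IsOpen {z | d j z = d k z} := fun j k => by
    by_cases h : j = k
    · simp [h]
    convert (h1 j).isOpen_compl.inter (h1 k).isOpen_compl using 1
    refine Subset.antisymm (fun z hz => ?_) fun z hz => d1 j k z hz.1 hz.2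
    by_cases a1 : z ∈ F j <;> by_cases a2 : z ∈ F k
    · exact absurd ((if_pos a1).symm.trans (Eq.trans hz (if_pos a2))) h
    · exact absurd (Eq.trans hz (if_neg a2)) (d2 j z a1)
    · exact absurd (Eq.trans (Eq.symm hz) (if_neg a1)) (d2 k z a2)
    · exact ⟨a1, a2⟩
  let e0 : Option J × ℝ → Eu n × ℝ × ℝ → (Eu n × Option J) × ℝ × ℝ × ℝ :=
    fun i u => ((u.1, d i.1 u.1), pr i.2 u.2)
  let M := {m // ∃ i u, e0 i u = m}
  let e : Option J × ℝ → Eu n × ℝ × ℝ → M := fun i u => ⟨e0 i u, i, u, rfl⟩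
  have e1 : ∀ i j u v, e i u = e j v ↔ u.1 = v.1 ∧ d i.1 v.1 = d j.1 v.1 ∧ pr i.2 u.2 = pr j.2 v.2 :=
    fun i j u v => by
      refine Subtype.ext_iff.trans ?_
      simp only [e, e0, Prod.mk.injEq, and_assoc]
      exact and_congr_right fun h => by rw [h]
  have e2 : ∀ x : M, ∃ i u, e i u = x := fun ⟨_, i, u, rfl⟩ => ⟨i, u, rfl⟩
  have he := glue e (fun i u v h => Prod.ext ((e1 _ _ _ _).1 h).1 (pr1 _ ((e1 _ _ _ _).1 h).2.2))
    fun i j V hV => by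
      obtain ⟨D, τ, a1, a2, a3⟩ := pr4 i.2 j.2
      convert ((d3 i.1 j.1).preimage (continuous_fst (Y := ℝ × ℝ))).inter
        ((continuousOn_fst.prodMk (a2.comp continuousOn_snd fun _ h => h)).isOpen_inter_preimage
          (a1.preimage (continuous_snd (X := Eu n))) hV) using 1
      ext v
      refine ⟨fun ⟨u, b1, b2⟩ => ?_, fun ⟨b1, b2, b3⟩ =>
        ⟨_, b3, (e1 _ _ _ _).2 ⟨rfl, b1, (a3 _ _).2 ⟨b2, rfl⟩⟩⟩⟩
      obtain ⟨b3, b4, b5⟩ := (e1 _ _ _ _).1 b2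
      refine ⟨b4, ((a3 _ _).1 b5).1, ?_⟩
      show (v.1, τ v.2) ∈ V
      rw [← b3, ← ((a3 _ _).1 b5).2]
      exact b1
  letI : TopologicalSpace M := ⨆ i, TopologicalSpace.coinduced (e i) inferInstance
  obtain ⟨φ⟩ : Nonempty ((Eu n × ℝ × ℝ) ≃L[ℝ] Eu (n + 2)) :=
    ⟨ContinuousLinearEquiv.ofFinrankEq (by simp)⟩
  have hM : Manifold (n + 2) M := by
    refine ⟨connectedSpace_iff_univ.2 ⟨⟨e (none, 0) 0, trivial⟩, ?_⟩, fun x => ?_⟩
    · have : (univ : Set M) = ⋃ i, range (e (none, 0)) ∪ range (e i) :=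
        (eq_univ_of_forall fun x => by
          obtain ⟨i, u, rfl⟩ := e2 x
          exact mem_iUnion.2 ⟨i, Or.inr ⟨u, rfl⟩⟩).symm
      rw [this]
      refine isPreconnected_iUnion ⟨e (none, 0) 0, mem_iInter.2 fun i => Or.inl ⟨0, rfl⟩⟩
        fun i => ?_
      obtain ⟨z, hz⟩ := (h2 i.1).nonempty
      exact (isPreconnected_range (he _).continuous).union' ⟨e i (z, 0, 1), ⟨(z, 0 + (i.2 - 0) / 1, 1),
        (e1 _ _ _ _).2 ⟨rfl, d1 _ _ _ (by simp [h0]) hz, pr2 0 i.2 (w := (0, 1)) one_pos⟩⟩, _, rfl⟩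
        (isPreconnected_range (he _).continuous)
    · obtain ⟨i, u, rfl⟩ := e2 x
      exact ⟨_, (he i).isOpen_range, ⟨u, rfl⟩,
        ⟨(he i).isEmbedding.toHomeomorph.symm.trans φ.toHomeomorph⟩⟩
  refine ⟨M, inferInstance, hM, fun x => ?_, ?_, ?_⟩
  · obtain ⟨i, u, rfl⟩ := e2 x
    obtain ⟨k, hk⟩ : ∃ k, d k u.1 ≠ d i.1 u.1 := by
      by_cases h : d i.1 u.1 = none
      · obtain ⟨j, hj⟩ := h3 u.1
        exact ⟨j, h ▸ d2 j _ hj⟩
      · exact ⟨none, fun h4 => h (h4.symm.trans (by simp [d]))⟩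
    refine ⟨e (k, i.2) u, fun h => hk ((e1 _ _ _ _).1 h).2.1, fun ⟨U, V, a1, a2, a3, a4, a5⟩ => ?_⟩
    obtain ⟨z, b1, b2⟩ := ((h2 i.1).inter_of_isOpen_left (h2 k)
      (h1 _).isOpen_compl).inter_open_nonempty _ (((a1.preimage (he i).continuous).inter
        (a2.preimage (he (k, i.2)).continuous)).preimage (Continuous.prodMk_left u.2)) ⟨u.1, a3, a4⟩
    exact disjoint_left.1 a5 b1.1 (show e i (z, u.2) ∈ V from
      ((e1 i (k, i.2) (z, u.2) (z, u.2)).2 ⟨rfl, d1 _ _ _ b2.1 b2.2, rfl⟩).symm ▸ b1.2)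
  · let g : M → ℝ := fun m => if 0 < m.1.2.2.2 then m.1.2.2.1 else m.1.2.1
    have g1 : ∀ i u, g (e i u) = i.2 + u.2.1 * max u.2.2 0 := fun i u => by
      by_cases h : 0 < u.2.2
      · simp [g, e, e0, pr, h, h.le]
      · simp [g, e, e0, pr, h, not_lt.1 h]
    have g2 : Continuous g := continuous_iSup_dom.2 fun i => continuous_coinduced_dom.2 (by
      rw [show g ∘ e i = _ from funext (g1 i)]
      fun_prop)
    have s1 : ∀ i u v, e i u ≠ e i v →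
        ∃ U V : Set M, IsOpen U ∧ IsOpen V ∧ e i u ∈ U ∧ e i v ∈ V ∧ Disjoint U V := fun i u v h =>
      sepO (he i).isOpen_range (he i).isEmbedding.toHomeomorph.symm.isEmbedding.t2Space
        ⟨u, rfl⟩ ⟨v, rfl⟩ h
    unfold OH
    refine le_trans (csInf_le' ⟨range fun j => ⋃ a, range (e (j, a)), ?_,
      eq_univ_of_forall fun x => ?_, rfl⟩) Cardinal.mk_range_le
    · rintro _ ⟨j, rfl⟩
      refine ⟨isOpen_iUnion fun a => (he _).isOpen_range, ⟨fun x y h => ?_⟩⟩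
      suffices ∃ U V : Set M, IsOpen U ∧ IsOpen V ∧ x.1 ∈ U ∧ y.1 ∈ V ∧ Disjoint U V by
        obtain ⟨U, V, a1, a2, a3, a4, a5⟩ := this
        exact ⟨_, _, a1.preimage continuous_subtype_val, a2.preimage continuous_subtype_val,
          a3, a4, a5.preimage _⟩
      have h4 := Subtype.val_injective.ne h
      obtain ⟨a, u, a1⟩ := mem_iUnion.1 x.2
      obtain ⟨b, v, a2⟩ := mem_iUnion.1 y.2
      rw [← a1, ← a2] at h4 ⊢
      by_cases b1 : a = b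
      · subst b1
        exact s1 _ _ _ h4
      by_cases b2 : 0 < v.2.2
      · rw [← (e1 (j, a) (j, b) (v.1, v.2.1 + (b - a) / v.2.2, v.2.2) v).2 ⟨rfl, rfl, pr2 a b b2⟩] at h4 ⊢
        exact s1 _ _ _ h4
      by_cases b3 : 0 < u.2.2
      · rw [← (e1 (j, b) (j, a) (u.1, u.2.1 + (a - b) / u.2.2, u.2.2) u).2 ⟨rfl, rfl, pr2 b a b3⟩] at h4 ⊢
        exact s1 _ _ _ h4
      exact separated_by_continuous g2 (by simpa [g1, not_lt.1 b2, not_lt.1 b3] using b1)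
    · obtain ⟨i, u, rfl⟩ := e2 x
      exact ⟨_, ⟨i.1, rfl⟩, mem_iUnion.2 ⟨i.2, u, rfl⟩⟩
  · obtain ⟨𝓤, a1, a2, a3⟩ := emem hM
    let L : ℝ → Set M := fun a => e (none, a) '' {u | u.2.2 < 0}
    have a4 : ∀ U ∈ 𝓤, {a | (Subtype.val ⁻¹' L a : Set U).Nonempty}.Countable := fun U hU => by
      obtain ⟨ψ⟩ := (a1 U hU).2
      haveI := ψ.isEmbedding.secondCountableTopology
      refine Set.PairwiseDisjoint.countable_of_isOpen (s := fun a => (Subtype.val ⁻¹' L a : Set U))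
        (fun a _ b _ h => disjoint_left.2 fun x ⟨u, b1, b2⟩ ⟨v, b3, b4⟩ => h ?_)
        (fun a _ => ((he _).isOpenMap _ (isOpen_lt continuous_snd.snd continuous_const)).preimage
          continuous_subtype_val) fun a h => h
      have := congrArg Prod.fst ((e1 _ _ _ _).1 (b2.trans b4.symm)).2.2
      rwa [pr, pr, if_neg (not_lt.2 (le_of_lt b1)), if_neg (not_lt.2 (le_of_lt b3))] at this
    have a5 : (univ : Set ℝ) ⊆ ⋃ U ∈ 𝓤, {a | (Subtype.val ⁻¹' L a : Set U).Nonempty} :=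
      fun a _ => by
        obtain ⟨U, b1, b2⟩ := eq_univ_iff_forall.1 a2 (e (none, a) (0, 0, -1))
        exact mem_biUnion b1 ⟨⟨_, b2⟩, (0, 0, -1), (neg_one_lt_zero : (-1 : ℝ) < 0), rfl⟩
    by_contra h
    refine ((Cardinal.mk_univ_real.symm.le.trans (Cardinal.mk_le_mk_of_subset a5)).trans
      (Cardinal.mk_biUnion_le _ _)).not_gt (Cardinal.mul_lt_of_lt Cardinal.aleph0_le_continuum
        (a3 ▸ not_le.1 h) ((ciSup_le' fun U => ?_).trans_lt Cardinal.aleph0_lt_continuum))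
    exact (a4 U.1 U.2).le_aleph0

theorem ex {n : ℕ} (h1 : 1 ≤ n) (h2 : cov n < 𝔠) : ∃ (M : Type) (_ : TopologicalSpace M),
    Manifold (n + 2) M ∧ ENH M ∧ OH M < Ecov (n + 2) M := by
  obtain ⟨m, rfl⟩ := Nat.exists_eq_add_of_le' h1
  obtain ⟨𝓝', a1, a2, a3⟩ := csInf_mem (s := {k | ∃ 𝓝' : Set (Set (Eu (m + 1))),
    (∀ N ∈ 𝓝', IsNowhereDense N) ∧ ⋃₀ 𝓝' = univ ∧ #𝓝' = k}) ⟨_, range singleton, by
      rintro _ ⟨z, rfl⟩
      exact isClosed_singleton.isNowhereDense_iff.2 (interior_singleton z),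
      eq_univ_of_forall fun z => ⟨_, ⟨z, rfl⟩, rfl⟩, rfl⟩
  obtain ⟨M, t, b1, b2, b3, b4⟩ := build (J := 𝓝') (fun j => j.elim ∅ fun s => closure s.1) rfl
    (fun j => by cases j; exacts [isClosed_empty, isClosed_closure])
    (fun j => by
      rcases j with _ | j
      · simp
      · exact interior_eq_empty_iff_dense_compl.1 (a1 _ j.2))
    fun z => by
      obtain ⟨N, b1, b2⟩ := eq_univ_iff_forall.1 a2 z
      exact ⟨some ⟨N, b1⟩, subset_closure b2⟩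
  refine ⟨M, t, b1, b2, (b3.trans_lt ?_).trans_le b4⟩
  rw [Cardinal.mk_option, a3]
  exact Cardinal.add_lt_of_lt Cardinal.aleph0_le_continuum h2
    (Cardinal.one_lt_aleph0.trans Cardinal.aleph0_lt_continuum)

theorem result :
    (∃ (n : ℕ) (M : Type) (_ : TopologicalSpace M), Manifold n M ∧ ENH M ∧ OH M < Ecov n M) ↔
      ∃ n, 1 ≤ n ∧ cov n < 𝔠 :=
  ⟨fun ⟨n, _, _, h1, h2, h3⟩ => ⟨n, small h1 h2 h3⟩, fun ⟨_, h1, h2⟩ => ⟨_, ex h1 h2⟩⟩

end Pool.Agent.Results.MP_434b1a_gt.Cov
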